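import Pool.Agent.Lib.MP_b066e3_lc.Top

set_option autoImplicit false

namespace Pool.Agent.Results.MP_b066e3_lc.Canonical

/-- Every superatomic poset algebra is canonically well-generated: a well-founded generating
sublattice can be chosen to contain, for every point `x` of the space of upper sets, a member that
meets some Cantor-Bendixson derivative of the space exactly in `x`. -/
theorem result :
  ∀ (P : Type) [PartialOrder P] (S : BooleanSubalgebra (Set (UpperSet P))),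
    S = BooleanSubalgebra.closure (Set.range fun p : P => {U : UpperSet P | p ∈ U}) →
    (∀ I : Set (Set (UpperSet P)), I ⊆ (S : Set (Set (UpperSet P))) → ∅ ∈ I →
      (∀ a ∈ I, ∀ b ∈ S, b ⊆ a → b ∈ I) → (∀ a ∈ I, ∀ b ∈ I, a ∪ b ∈ I) →
      ∀ b ∈ S, b ∉ I → ∃ a ∈ S, a ⊆ b ∧ a ∉ I ∧ ∀ c ∈ S, c ⊆ a → c ∈ I ∨ a \ c ∈ I) →
    ∃ G : Set (Set (UpperSet P)), G ⊆ (S : Set (Set (UpperSet P))) ∧
      (∀ x ∈ G, ∀ y ∈ G, x ∪ y ∈ G ∧ x ∩ y ∈ G) ∧
      (¬ ∃ f : ℕ → Set (UpperSet P), ∀ n, f n ∈ G ∧ f (n + 1) ⊂ f n) ∧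
      BooleanSubalgebra.closure G = S ∧
      ∀ x : UpperSet P, ∃ α : Ordinal.{0}, ∃ g ∈ G,
        g ∩ @CantorBendixson.iteratedDerivedSet (UpperSet P)
          (TopologicalSpace.generateFrom (S : Set (Set (UpperSet P)))) Set.univ α = {x} := by
  intro P _ S hS h
  subst hS
  exact Pool.Agent.B066.canonical h

end Pool.Agent.Results.MP_b066e3_lc.Canonical
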